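import Mathlib

set_option autoImplicit false

/-!
The word `ABB` in dimension 2 has no stable letter distribution.
-/

namespace Pool.Agent.Results.MP_f54ac9_co.NoStableDistribution

/-- A `d`-dimensional grid over the alphabet `α`: positive sizes `n_1, ..., n_d` and a function
from the toroidal box `∏ i, ZMod (n_i)` to `α`. -/
structure Grid (d : ℕ) (α : Type) where
  /-- the side lengths -/
  size : Fin d → ℕ
  size_pos : ∀ i, 0 < size i
  /-- the letter at each position -/
  letter : ((i : Fin d) → ZMod (size i)) → α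

variable {d : ℕ} {α : Type}

/-- The size `|Γ| = n_1 ⋯ n_d` of a grid. -/
def Grid.card (Γ : Grid d α) : ℕ := ∏ i, Γ.size i

/-- The position `p + i v`, where the direction `v` has coordinates in `{-1, 0, 1}`. -/
def Grid.shift (Γ : Grid d α) (p : (j : Fin d) → ZMod (Γ.size j)) (v : Fin d → SignType)
    (i : ℕ) : (j : Fin d) → ZMod (Γ.size j) :=
  fun j => p j + (i : ZMod (Γ.size j)) * (SignType.cast (v j) : ZMod (Γ.size j))

/-- The appearances of the word `w` in `Γ`: pairs `(p, v)` of a position and a nonzero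
direction such that the letters at `p, p + v, p + 2 v, ...` are the letters of `w` in order. -/
def Grid.appearances (Γ : Grid d α) (w : List α) :
    Set (((j : Fin d) → ZMod (Γ.size j)) × (Fin d → SignType)) :=
  {q | q.2 ≠ 0 ∧ ∀ (i : ℕ) (hi : i < w.length), Γ.letter (Γ.shift q.1 q.2 i) = w[i]}

/-- The concentration `c_d(w, Γ)`: the number of appearances divided by `|Γ|`. -/
noncomputable def Grid.conc (Γ : Grid d α) (w : List α) : ℝ :=
  ((Γ.appearances w).ncard : ℝ) / (Γ.card : ℝ)

/-- `C_d(w)`: the supremum of the concentrations over all `d`-dimensional grids. -/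
noncomputable def maxConc (d : ℕ) (w : List α) : ℝ :=
  sSup (Set.range (fun Γ : Grid d α => Γ.conc w))

/-- The letter distribution `h_Γ` of a grid. -/
noncomputable def Grid.dist (Γ : Grid d α) (A : α) : ℝ :=
  ({p | Γ.letter p = A}.ncard : ℝ) / (Γ.card : ℝ)

/-- `h` is a letter distribution: nonnegative, of finite support, with sum `1`. -/
def IsLetterDistribution (h : α → ℝ) : Prop :=
  (∀ A, 0 ≤ h A) ∧ (Function.support h).Finite ∧ ∑ᶠ A, h A = 1

/-- The total variation distance of two letter distributions. -/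
noncomputable def tv (h₁ h₂ : α → ℝ) : ℝ := (1 / 2) * ∑ᶠ A, |h₁ A - h₂ A|

/-! ### The certificate for the upper bound -/

/-- The potential (times 4) on 3 by 2 windows `x00 x01 / x10 x11 / x20 x21`,
encoded as the number with binary digits `x00 x01 x10 x11 x20 x21`. -/
def potTable : List ℤ := [0, 1, -1, 0, 2, 3, 2, 4, -2, -2, -3, -4, 0, 1, -1, 0, 1, 6, 0, 3, 3, 4, 3, 5, -2, 2, -3, 0, 1, 2, 0, 2, -1, 0, -6, -3, 2, 3, -2, 0, -3, -3, -4, -5, -1, 0, -2, -2, 0, 3, -3, 0, 4, 5, 0, 6, -4, 0, -5, -6, 0, 2, -2, 0]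

/-- Encode. -/
def enc (a b c d e f : Bool) : ℕ :=
  32 * a.toNat + 16 * b.toNat + 8 * c.toNat + 4 * d.toNat + 2 * e.toNat + f.toNat

/-- The potential (times 4). -/
def pot (a b c d e f : Bool) : ℤ := potTable.getD (enc a b c d e f) 0

/-- number of appearances with given middle cell -/
def cnt (a b c : Bool) : ℤ := if (a && !b && !c) = true then 1 else 0

/-- the window inequality -/
def windowOK (a b c d e f g h i : Bool) : Bool :=
  decide (4 * (cnt a e i + cnt b e h + cnt c e g + cnt d e f + cnt f e d + cnt g e c +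
    cnt h e b + cnt i e a) + pot a b d e g h - pot b c e f h i
    + pot a d b e c f - pot d g e h f i ≤ 8)

theorem windowOK_all : ∀ a b c d e f g h i : Bool, windowOK a b c d e f g h i = true := by
  decide +kernel

/-! ### Summing the certificate over a torus -/

theorem sum_signType {M : Type} [AddCommMonoid M] (f : SignType → M) :
    ∑ s, f s = f 0 + f (-1) + f 1 := by
  have h : (Finset.univ : Finset SignType) = {0, -1, 1} := by decide
  rw [h, Finset.sum_insert (by decide), Finset.sum_insert (by decide), Finset.sum_singleton,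
    add_assoc]

section torus

variable {m n : ℕ} [NeZero m] [NeZero n]

/-- occurrences of `true,false,false` read along a direction -/
def cntAt (X : ZMod m × ZMod n → Bool) (p : ZMod m × ZMod n) (v : SignType × SignType) : ℤ :=
  if v = 0 then 0 else
    cnt (X p) (X (p + (SignType.cast v.1, SignType.cast v.2)))
      (X (p + (SignType.cast v.1, SignType.cast v.2) + (SignType.cast v.1, SignType.cast v.2)))

theorem shift_sum (F : ZMod m × ZMod n → ℤ) (t : ZMod m × ZMod n) :
    ∑ p, F (p + t) = ∑ p, F p :=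
  Equiv.sum_comp (Equiv.addRight t) F

theorem shift_sum' (F : ZMod m × ZMod n → ℤ) (t : ZMod m × ZMod n) :
    ∑ p, F (p - t) = ∑ p, F p :=
  Equiv.sum_comp (Equiv.subRight t) F

theorem cntAt_sum (X : ZMod m × ZMod n → Bool) (v : SignType × SignType) (hv : v ≠ 0) :
    ∑ p, cntAt X p v = ∑ p, cnt (X (p - (SignType.cast v.1, SignType.cast v.2))) (X p)
      (X (p + (SignType.cast v.1, SignType.cast v.2))) := by
  rw [← shift_sum (fun p => cnt (X (p - (SignType.cast v.1, SignType.cast v.2))) (X p)
      (X (p + (SignType.cast v.1, SignType.cast v.2)))) (SignType.cast v.1, SignType.cast v.2)]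
  refine Finset.sum_congr rfl (fun p _ => ?_)
  unfold cntAt
  rw [if_neg hv, add_sub_cancel_right]

theorem torus_bound (X : ZMod m × ZMod n → Bool) :
    4 * ∑ v, ∑ p, cntAt X p v ≤ 8 * (m * n : ℕ) := by
  -- windows
  have key : ∀ p : ZMod m × ZMod n,
      4 * (cnt (X (p + (-1,-1))) (X p) (X (p + (1,1))) + cnt (X (p + (-1,0))) (X p) (X (p + (1,0)))
        + cnt (X (p + (-1,1))) (X p) (X (p + (1,-1))) + cnt (X (p + (0,-1))) (X p) (X (p + (0,1)))
        + cnt (X (p + (0,1))) (X p) (X (p + (0,-1))) + cnt (X (p + (1,-1))) (X p) (X (p + (-1,1)))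
        + cnt (X (p + (1,0))) (X p) (X (p + (-1,0))) + cnt (X (p + (1,1))) (X p) (X (p + (-1,-1))))
      + pot (X (p + (-1,-1))) (X (p + (-1,0))) (X (p + (0,-1))) (X p) (X (p + (1,-1)))
          (X (p + (1,0)))
      - pot (X (p + (-1,0))) (X (p + (-1,1))) (X p) (X (p + (0,1))) (X (p + (1,0)))
          (X (p + (1,1)))
      + pot (X (p + (-1,-1))) (X (p + (0,-1))) (X (p + (-1,0))) (X p) (X (p + (-1,1)))
          (X (p + (0,1)))
      - pot (X (p + (0,-1))) (X (p + (1,-1))) (X p) (X (p + (1,0))) (X (p + (0,1)))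
          (X (p + (1,1))) ≤ 8 := by
    intro p
    have h := windowOK_all (X (p + (-1,-1))) (X (p + (-1,0))) (X (p + (-1,1)))
      (X (p + (0,-1))) (X p) (X (p + (0,1))) (X (p + (1,-1))) (X (p + (1,0))) (X (p + (1,1)))
    unfold windowOK at h
    exact of_decide_eq_true h
  have hsum := Finset.sum_le_sum (fun p (_ : p ∈ (Finset.univ : Finset (ZMod m × ZMod n))) => key p)
  rw [Finset.sum_const, Finset.card_univ, Fintype.card_prod, ZMod.card, ZMod.card] at hsum
  rw [Finset.sum_sub_distrib, Finset.sum_add_distrib, Finset.sum_sub_distrib,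
    Finset.sum_add_distrib] at hsum
  -- the potentials telescope
  have hH : ∑ p : ZMod m × ZMod n, pot (X (p + (-1,0))) (X (p + (-1,1))) (X p) (X (p + (0,1)))
        (X (p + (1,0))) (X (p + (1,1)))
      = ∑ p : ZMod m × ZMod n, pot (X (p + (-1,-1))) (X (p + (-1,0))) (X (p + (0,-1))) (X p)
        (X (p + (1,-1))) (X (p + (1,0))) := by
    rw [← shift_sum (fun p : ZMod m × ZMod n => pot (X (p + (-1,-1))) (X (p + (-1,0)))
      (X (p + (0,-1))) (X p) (X (p + (1,-1))) (X (p + (1,0)))) (0, 1)]
    refine Finset.sum_congr rfl (fun p _ => ?_)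
    simp only [add_assoc, Prod.mk_add_mk, zero_add, add_zero, add_neg_cancel,
      Prod.mk_zero_zero]
  have hV : ∑ p : ZMod m × ZMod n, pot (X (p + (0,-1))) (X (p + (1,-1))) (X p) (X (p + (1,0)))
        (X (p + (0,1))) (X (p + (1,1)))
      = ∑ p : ZMod m × ZMod n, pot (X (p + (-1,-1))) (X (p + (0,-1))) (X (p + (-1,0))) (X p)
        (X (p + (-1,1))) (X (p + (0,1))) := by
    rw [← shift_sum (fun p : ZMod m × ZMod n => pot (X (p + (-1,-1))) (X (p + (0,-1)))
      (X (p + (-1,0))) (X p) (X (p + (-1,1))) (X (p + (0,1)))) (1, 0)]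
    refine Finset.sum_congr rfl (fun p _ => ?_)
    simp only [add_assoc, Prod.mk_add_mk, zero_add, add_zero, add_neg_cancel,
      Prod.mk_zero_zero]
  rw [hH, hV] at hsum
  have hcount : ∑ v, ∑ p, cntAt X p v = ∑ p : ZMod m × ZMod n,
      (cnt (X (p + (-1,-1))) (X p) (X (p + (1,1))) + cnt (X (p + (-1,0))) (X p) (X (p + (1,0)))
        + cnt (X (p + (-1,1))) (X p) (X (p + (1,-1))) + cnt (X (p + (0,-1))) (X p) (X (p + (0,1)))
        + cnt (X (p + (0,1))) (X p) (X (p + (0,-1))) + cnt (X (p + (1,-1))) (X p) (X (p + (-1,1)))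
        + cnt (X (p + (1,0))) (X p) (X (p + (-1,0))) + cnt (X (p + (1,1))) (X p)
          (X (p + (-1,-1)))) := by
    rw [Fintype.sum_prod_type]
    simp only [sum_signType]
    rw [cntAt_sum X (0, -1) (by decide), cntAt_sum X (0, 1) (by decide),
      cntAt_sum X (-1, 0) (by decide), cntAt_sum X (-1, -1) (by decide),
      cntAt_sum X (-1, 1) (by decide), cntAt_sum X (1, 0) (by decide),
      cntAt_sum X (1, -1) (by decide), cntAt_sum X (1, 1) (by decide)]
    have h0 : ∑ p : ZMod m × ZMod n, cntAt X p (0, 0) = 0 := by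
      refine Finset.sum_eq_zero (fun p _ => ?_)
      unfold cntAt
      rw [if_pos Prod.mk_zero_zero]
    rw [h0]
    simp only [sub_eq_add_neg, Prod.neg_mk, SignType.coe_zero, SignType.coe_one,
      SignType.coe_neg_one, neg_neg, neg_zero]
    simp only [Finset.sum_add_distrib]
    ring
  rw [hcount]
  rw [← Finset.mul_sum] at hsum
  have h8 : (m * n) • (8 : ℤ) = 8 * ((m * n : ℕ) : ℤ) := by
    rw [nsmul_eq_mul]; ring
  rw [h8] at hsum
  linarith

theorem cnt_nonneg (a b c : Bool) : 0 ≤ cnt a b c := by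
  unfold cnt; split_ifs <;> norm_num

omit [NeZero m] [NeZero n] in
theorem cntAt_nonneg (X : ZMod m × ZMod n → Bool) (p : ZMod m × ZMod n)
    (v : SignType × SignType) : 0 ≤ cntAt X p v := by
  unfold cntAt
  split_ifs
  · exact le_refl _
  · exact cnt_nonneg _ _ _

end torus

/-! ### Passing from a grid to `ZMod m × ZMod n` -/

/-- A position of a 2-dimensional grid from its two coordinates. -/
def mkPos (Γ : Grid 2 α) (p : ZMod (Γ.size 0) × ZMod (Γ.size 1)) :
    (j : Fin 2) → ZMod (Γ.size j) :=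
  (piFinTwoEquiv (fun j => ZMod (Γ.size j))).symm p

/-- Positions and directions as pairs. -/
def pairEquiv (Γ : Grid 2 α) :
    (((j : Fin 2) → ZMod (Γ.size j)) × (Fin 2 → SignType)) ≃
      (ZMod (Γ.size 0) × ZMod (Γ.size 1)) × (SignType × SignType) :=
  (piFinTwoEquiv (fun j => ZMod (Γ.size j))).prodCongr (piFinTwoEquiv (fun _ => SignType))

theorem mkPos_shift (Γ : Grid 2 α) (p : (j : Fin 2) → ZMod (Γ.size j)) (v : Fin 2 → SignType)
    (i : ℕ) :
    mkPos Γ (p 0 + (i : ZMod (Γ.size 0)) * (SignType.cast (v 0) : ZMod (Γ.size 0)),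
      p 1 + (i : ZMod (Γ.size 1)) * (SignType.cast (v 1) : ZMod (Γ.size 1))) =
    Γ.shift p v i := by
  funext j
  fin_cases j <;> rfl

theorem card_eq (Γ : Grid 2 α) : Γ.card = Γ.size 0 * Γ.size 1 := by
  unfold Grid.card
  rw [Fin.prod_univ_two]

theorem mem_appearances (Γ : Grid 2 α) (a b : α)
    (q : ((j : Fin 2) → ZMod (Γ.size j)) × (Fin 2 → SignType)) :
    q ∈ Γ.appearances [a, b, b] ↔ q.2 ≠ 0 ∧ Γ.letter (Γ.shift q.1 q.2 0) = a ∧
      Γ.letter (Γ.shift q.1 q.2 1) = b ∧ Γ.letter (Γ.shift q.1 q.2 2) = b := by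
  unfold Grid.appearances
  rw [Set.mem_ofPred_eq]
  constructor
  · rintro ⟨h0, h⟩
    exact ⟨h0, h 0 (by simp), h 1 (by simp), h 2 (by simp)⟩
  · rintro ⟨h0, h1, h2, h3⟩
    refine ⟨h0, ?_⟩
    intro i hi
    have hi' : i < 3 := by simpa using hi
    interval_cases i
    · exact h1
    · exact h2
    · exact h3

theorem conc_le (Γ : Grid 2 α) (a b : α) (hab : a ≠ b) : Γ.conc [a, b, b] ≤ 2 := by
  classical
  have : NeZero (Γ.size 0) := ⟨(Γ.size_pos 0).ne'⟩
  have : NeZero (Γ.size 1) := ⟨(Γ.size_pos 1).ne'⟩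
  set X : ZMod (Γ.size 0) × ZMod (Γ.size 1) → Bool :=
    fun p => decide (Γ.letter (mkPos Γ p) ≠ b) with hX
  have hb := torus_bound X
  have hsub : pairEquiv Γ '' (Γ.appearances [a, b, b]) ⊆
      ((Finset.univ.filter (fun q : (ZMod (Γ.size 0) × ZMod (Γ.size 1)) ×
        (SignType × SignType) => 1 ≤ cntAt X q.1 q.2) : Finset _) : Set _) := by
    rintro _ ⟨q, hq, rfl⟩
    rw [mem_appearances] at hq
    obtain ⟨h0, h1, h2, h3⟩ := hq
    rw [Finset.coe_filter]
    refine ⟨Finset.mem_univ _, ?_⟩
    obtain ⟨p, v⟩ := q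
    have hv : ((v 0, v 1) : SignType × SignType) ≠ 0 := by
      intro h
      apply h0
      have h' := Prod.mk.inj h
      funext j
      fin_cases j
      · exact h'.1
      · exact h'.2
    have e0 : mkPos Γ (p 0, p 1) = Γ.shift p v 0 := by
      rw [← mkPos_shift]; simp
    have e1 : mkPos Γ ((p 0, p 1) + ((SignType.cast (v 0) : ZMod (Γ.size 0)),
        (SignType.cast (v 1) : ZMod (Γ.size 1)))) = Γ.shift p v 1 := by
      rw [← mkPos_shift]; simp
    have e2 : mkPos Γ ((p 0, p 1) + ((SignType.cast (v 0) : ZMod (Γ.size 0)),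
        (SignType.cast (v 1) : ZMod (Γ.size 1))) + ((SignType.cast (v 0) : ZMod (Γ.size 0)),
        (SignType.cast (v 1) : ZMod (Γ.size 1)))) = Γ.shift p v 2 := by
      rw [← mkPos_shift]
      congr 1
      simp only [Prod.mk_add_mk, Nat.cast_ofNat]
      congr 1 <;> ring
    have hx0 : X (p 0, p 1) = true := by
      rw [hX]; simp only [e0, h1]; simp [hab]
    have hx1 : X ((p 0, p 1) + ((SignType.cast (v 0) : ZMod (Γ.size 0)),
        (SignType.cast (v 1) : ZMod (Γ.size 1)))) = false := by
      rw [hX]; simp only [e1, h2]; simp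
    have hx2 : X ((p 0, p 1) + ((SignType.cast (v 0) : ZMod (Γ.size 0)),
        (SignType.cast (v 1) : ZMod (Γ.size 1))) + ((SignType.cast (v 0) : ZMod (Γ.size 0)),
        (SignType.cast (v 1) : ZMod (Γ.size 1)))) = false := by
      rw [hX]; simp only [e2, h3]; simp
    change 1 ≤ cntAt X (p 0, p 1) (v 0, v 1)
    unfold cntAt
    rw [if_neg hv, hx0, hx1, hx2]
    decide
  have hcard : (Γ.appearances [a, b, b]).ncard ≤
      (Finset.univ.filter (fun q : (ZMod (Γ.size 0) × ZMod (Γ.size 1)) ×
        (SignType × SignType) => 1 ≤ cntAt X q.1 q.2)).card := by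
    rw [← Set.ncard_image_of_injective _ (pairEquiv Γ).injective, ← Set.ncard_coe_finset]
    exact Set.ncard_le_ncard hsub (Finset.finite_toSet _)
  have hle : ((Finset.univ.filter (fun q : (ZMod (Γ.size 0) × ZMod (Γ.size 1)) ×
        (SignType × SignType) => 1 ≤ cntAt X q.1 q.2)).card : ℤ) ≤
      ∑ v, ∑ p, cntAt X p v := by
    rw [← Fintype.sum_prod_type_right (fun q : (ZMod (Γ.size 0) × ZMod (Γ.size 1)) ×
        (SignType × SignType) => cntAt X q.1 q.2), Finset.card_filter]
    push_cast
    refine Finset.sum_le_sum (fun q _ => ?_)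
    split_ifs with h
    · exact h
    · exact cntAt_nonneg _ _ _
  have hfin : ((Γ.appearances [a, b, b]).ncard : ℤ) ≤ 2 * (Γ.card : ℤ) := by
    rw [card_eq]
    have : ((Γ.appearances [a, b, b]).ncard : ℤ) ≤ ∑ v, ∑ p, cntAt X p v :=
      le_trans (by exact_mod_cast hcard) hle
    linarith
  have hpos : (0 : ℝ) < (Γ.card : ℝ) := by
    have : 0 < Γ.card := Finset.prod_pos (fun i _ => Γ.size_pos i)
    exact_mod_cast this
  unfold Grid.conc
  rw [div_le_iff₀ hpos]
  exact_mod_cast hfin

/-! ### Explicit grids -/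

/-- The grid of size `m` by `n` with the letter `a` where `T` is true and `b` elsewhere. -/
def gridOf (m n : ℕ) (hm : 0 < m) (hn : 0 < n) (T : ZMod m → ZMod n → Bool) (a b : α) :
    Grid 2 α where
  size := ![m, n]
  size_pos := by
    intro i
    fin_cases i
    · exact hm
    · exact hn
  letter := fun p => if T (p 0) (p 1) = true then a else b

/-- A decidable test for appearances. -/
def test {m n : ℕ} (T : ZMod m → ZMod n → Bool)
    (q : (ZMod m × ZMod n) × (SignType × SignType)) : Bool :=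
  !(decide (q.2.1 = 0) && decide (q.2.2 = 0)) && T q.1.1 q.1.2 &&
    !(T (q.1.1 + SignType.cast q.2.1) (q.1.2 + SignType.cast q.2.2)) &&
    !(T (q.1.1 + SignType.cast q.2.1 + SignType.cast q.2.1)
      (q.1.2 + SignType.cast q.2.2 + SignType.cast q.2.2))

theorem gridOf_card (m n : ℕ) (hm : 0 < m) (hn : 0 < n) (T : ZMod m → ZMod n → Bool) (a b : α) :
    (gridOf m n hm hn T a b).card = m * n := by
  rw [card_eq]; rfl

theorem finite_pos (Γ : Grid 2 α) : Finite ((j : Fin 2) → ZMod (Γ.size j)) := by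
  have : ∀ j, NeZero (Γ.size j) := fun j => ⟨(Γ.size_pos j).ne'⟩
  infer_instance

theorem ncard_ge (m n : ℕ) (hm : 0 < m) (hn : 0 < n) [NeZero m] [NeZero n]
    (T : ZMod m → ZMod n → Bool) (a b : α) :
    (Finset.univ.filter (fun q : (ZMod m × ZMod n) × (SignType × SignType) =>
      test T q = true)).card ≤ ((gridOf m n hm hn T a b).appearances [a, b, b]).ncard := by
  set Γ := gridOf m n hm hn T a b with hΓ
  rw [← Set.ncard_coe_finset]
  let F : Finset ((ZMod m × ZMod n) × (SignType × SignType)) :=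
    Finset.univ.filter (fun q => test T q = true)
  let S0 : Set ((ZMod m × ZMod n) × (SignType × SignType)) := (F : Set _)
  let S : Set ((ZMod (Γ.size 0) × ZMod (Γ.size 1)) × (SignType × SignType)) := S0
  change S.ncard ≤ _
  rw [← Set.ncard_image_of_injective S (pairEquiv Γ).symm.injective]
  have : Finite ((j : Fin 2) → ZMod (Γ.size j)) := finite_pos Γ
  refine Set.ncard_le_ncard ?_ (Set.toFinite _)
  rintro _ ⟨q, hq, rfl⟩
  revert hq
  revert q
  change ∀ q : (ZMod m × ZMod n) × (SignType × SignType), q ∈ S0 →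
    (pairEquiv Γ).symm q ∈ Γ.appearances [a, b, b]
  rintro ⟨⟨r, c⟩, ⟨s, t⟩⟩ hq
  have hq' : test T ((r, c), (s, t)) = true := (Finset.mem_filter.mp (Finset.mem_coe.mp hq)).2
  unfold test at hq'
  simp only [Bool.and_eq_true, Bool.not_eq_true', Bool.and_eq_false_iff,
    decide_eq_false_iff_not] at hq'
  obtain ⟨⟨⟨h0, h1⟩, h2⟩, h3⟩ := hq'
  rw [mem_appearances]
  refine ⟨?_, ?_, ?_, ?_⟩
  · intro h
    have e0 : s = 0 := congrFun h 0
    have e1 : t = 0 := congrFun h 1
    rcases h0 with h0 | h0
    · exact h0 e0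
    · exact h0 e1
  · change (if T (r + ((0 : ℕ) : ZMod m) * SignType.cast s)
      (c + ((0 : ℕ) : ZMod n) * SignType.cast t) = true then a else b) = a
    rw [Nat.cast_zero, zero_mul, add_zero, Nat.cast_zero, zero_mul, add_zero, if_pos h1]
  · change (if T (r + ((1 : ℕ) : ZMod m) * SignType.cast s)
      (c + ((1 : ℕ) : ZMod n) * SignType.cast t) = true then a else b) = b
    rw [Nat.cast_one, one_mul, Nat.cast_one, one_mul, if_neg (by rw [h2]; decide)]
  · change (if T (r + ((2 : ℕ) : ZMod m) * SignType.cast s)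
      (c + ((2 : ℕ) : ZMod n) * SignType.cast t) = true then a else b) = b
    have e1 : r + ((2 : ℕ) : ZMod m) * SignType.cast s
        = r + SignType.cast s + SignType.cast s := by push_cast; ring
    have e2 : c + ((2 : ℕ) : ZMod n) * SignType.cast t
        = c + SignType.cast t + SignType.cast t := by push_cast; ring
    rw [e1, e2, if_neg (by rw [h3]; decide)]

theorem letter_count (m n : ℕ) (hm : 0 < m) (hn : 0 < n) [NeZero m] [NeZero n]
    (T : ZMod m → ZMod n → Bool) (a b : α) (P : Bool → Prop) [DecidablePred P] (A : α)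
    (hA : ∀ x : Bool, (if x = true then a else b) = A ↔ P x) :
    {p | (gridOf m n hm hn T a b).letter p = A}.ncard =
      (Finset.univ.filter (fun q : ZMod m × ZMod n => P (T q.1 q.2))).card := by
  classical
  set Γ := gridOf m n hm hn T a b with hΓ
  rw [← Set.ncard_coe_finset]
  rw [← Set.ncard_image_of_injective _ (piFinTwoEquiv (fun j => ZMod (Γ.size j))).injective]
  congr 1
  ext ⟨r, c⟩
  constructor
  · rintro ⟨p, hp, hp'⟩
    rw [Finset.coe_filter]
    refine ⟨Finset.mem_univ _, ?_⟩
    have h1 : p 0 = r := (Prod.mk.inj hp').1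
    have h2 : p 1 = c := (Prod.mk.inj hp').2
    have h3 : (if T (p 0) (p 1) = true then a else b) = A := hp
    rw [← hA, ← h1, ← h2]
    exact h3
  · intro h
    rw [Finset.coe_filter] at h
    refine ⟨(piFinTwoEquiv (fun j => ZMod (Γ.size j))).symm (r, c), ?_, ?_⟩
    · change (if T r c = true then a else b) = A
      rw [hA]
      exact h.2
    · exact Equiv.apply_symm_apply _ _

theorem dist_eq (m n : ℕ) (hm : 0 < m) (hn : 0 < n) [NeZero m] [NeZero n]
    (T : ZMod m → ZMod n → Bool) (a b : α) (hab : a ≠ b) :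
    (gridOf m n hm hn T a b).dist a =
      ((Finset.univ.filter (fun q : ZMod m × ZMod n => T q.1 q.2 = true)).card : ℝ) /
        ((m * n : ℕ) : ℝ) ∧
    (gridOf m n hm hn T a b).dist b =
      ((Finset.univ.filter (fun q : ZMod m × ZMod n => T q.1 q.2 = false)).card : ℝ) /
        ((m * n : ℕ) : ℝ) ∧
    ∀ A, A ≠ a → A ≠ b → (gridOf m n hm hn T a b).dist A = 0 := by
  refine ⟨?_, ?_, ?_⟩
  · unfold Grid.dist
    rw [gridOf_card, letter_count m n hm hn T a b (fun x => x = true) a]
    intro x
    cases x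
    · simp [hab.symm]
    · simp
  · unfold Grid.dist
    rw [gridOf_card, letter_count m n hm hn T a b (fun x => x = false) b]
    intro x
    cases x
    · simp
    · simp [hab]
  · intro A hAa hAb
    unfold Grid.dist
    have : {p | (gridOf m n hm hn T a b).letter p = A} = ∅ := by
      ext p
      simp only [Set.mem_empty_iff_false, iff_false]
      intro h
      have h' : (if T (p 0) (p 1) = true then a else b) = A := h
      split_ifs at h'
      · exact hAa h'.symm
      · exact hAb h'.symm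
    rw [this, Set.ncard_empty, Nat.cast_zero, zero_div]

/-- The striped pattern. -/
def T₁ : ZMod 3 → ZMod 1 → Bool := fun r _ => decide (r = 0)

/-- The pattern with concentration 7/4 and density 1/2. -/
def T₂ : ZMod 8 → ZMod 4 → Bool := fun r c =>
  (![![true, false, true, false],
     ![true, true, false, false],
     ![false, true, false, true],
     ![false, true, true, false],
     ![true, false, true, false],
     ![false, false, true, true],
     ![false, true, false, true],
     ![true, false, false, true]] : Fin 8 → Fin 4 → Bool) r c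

theorem count₁ : (Finset.univ.filter (fun q : (ZMod 3 × ZMod 1) × (SignType × SignType) =>
      test T₁ q = true)).card = 6 := by decide +kernel

theorem count₂ : (Finset.univ.filter (fun q : (ZMod 8 × ZMod 4) × (SignType × SignType) =>
      test T₂ q = true)).card = 56 := by decide +kernel

theorem dens₁ : (Finset.univ.filter (fun q : ZMod 3 × ZMod 1 => T₁ q.1 q.2 = true)).card = 1 ∧
    (Finset.univ.filter (fun q : ZMod 3 × ZMod 1 => T₁ q.1 q.2 = false)).card = 2 := by
  decide +kernel

theorem dens₂ : (Finset.univ.filter (fun q : ZMod 8 × ZMod 4 => T₂ q.1 q.2 = true)).card = 16 ∧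
    (Finset.univ.filter (fun q : ZMod 8 × ZMod 4 => T₂ q.1 q.2 = false)).card = 16 := by
  decide +kernel

theorem maxConc_eq (a b : α) (hab : a ≠ b) : maxConc 2 [a, b, b] = 2 := by
  have hbdd : BddAbove (Set.range (fun Γ : Grid 2 α => Γ.conc [a, b, b])) :=
    ⟨2, by rintro _ ⟨Γ, rfl⟩; exact conc_le Γ a b hab⟩
  apply le_antisymm
  · apply csSup_le
    · exact ⟨_, ⟨gridOf 1 1 one_pos one_pos (fun _ _ => true) a b, rfl⟩⟩
    · rintro _ ⟨Γ, rfl⟩
      exact conc_le Γ a b hab
  · refine le_csSup_of_le hbdd ⟨gridOf 3 1 (by norm_num) one_pos T₁ a b, rfl⟩ ?_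
    have h := ncard_ge 3 1 (by norm_num) one_pos T₁ a b
    rw [count₁] at h
    change 2 ≤ (gridOf 3 1 (by norm_num) one_pos T₁ a b).conc [a, b, b]
    unfold Grid.conc
    rw [gridOf_card, le_div_iff₀ (by norm_num)]
    have h' : (6 : ℝ) ≤
      (((gridOf 3 1 (by norm_num) one_pos T₁ a b).appearances [a, b, b]).ncard : ℝ) := by
      exact_mod_cast h
    norm_num
    linarith

/-- The word `[a, b, b]` in dimension 2 has no stable letter distribution: for every letter
distribution `h` there are `δ ≥ 0` and a 2-dimensional grid `Γ` with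
`c(w, Γ) ≥ C(w) (1 - δ)` whose letter distribution has total variation distance larger than
`δ` from `h`. -/
theorem result (α : Type) (a b : α) (hab : a ≠ b) :
    ∀ h : α → ℝ, IsLetterDistribution h →
      ∃ (δ : ℝ) (Γ : Grid 2 α), 0 ≤ δ ∧
        maxConc 2 [a, b, b] * (1 - δ) ≤ Γ.conc [a, b, b] ∧ δ < tv Γ.dist h := by
  classical
  intro h hh
  rw [maxConc_eq a b hab]
  set Γ₁ := gridOf 3 1 (by norm_num) one_pos T₁ a b with hΓ₁
  set Γ₂ := gridOf 8 4 (by norm_num) (by norm_num) T₂ a b with hΓ₂
  obtain ⟨ha₁, hb₁, ho₁⟩ := dist_eq 3 1 (by norm_num) one_pos T₁ a b hab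
  obtain ⟨ha₂, hb₂, ho₂⟩ := dist_eq 8 4 (by norm_num) (by norm_num) T₂ a b hab
  rw [← hΓ₁] at ha₁ hb₁ ho₁
  rw [← hΓ₂] at ha₂ hb₂ ho₂
  rw [dens₁.1] at ha₁
  rw [dens₁.2] at hb₁
  rw [dens₂.1] at ha₂
  rw [dens₂.2] at hb₂
  by_cases hd : h = Γ₁.dist
  · refine ⟨1 / 8, Γ₂, by norm_num, ?_, ?_⟩
    · have hc := ncard_ge 8 4 (by norm_num) (by norm_num) T₂ a b
      rw [count₂, ← hΓ₂] at hc
      have hc' : (56 : ℝ) ≤ ((Γ₂.appearances [a, b, b]).ncard : ℝ) := by exact_mod_cast hc
      unfold Grid.conc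
      rw [hΓ₂, gridOf_card, ← hΓ₂, le_div_iff₀ (by norm_num)]
      norm_num
      linarith
    · unfold tv
      have hs : Function.support (fun A => |Γ₂.dist A - h A|) ⊆ (({a, b} : Finset α) : Set α) := by
        intro A hA
        by_contra hA'
        simp only [Finset.coe_insert, Finset.coe_singleton, Set.mem_insert_iff,
          Set.mem_singleton_iff, not_or] at hA'
        apply hA
        change |Γ₂.dist A - h A| = 0
        rw [hd, ho₁ A hA'.1 hA'.2, ho₂ A hA'.1 hA'.2]
        simp
      rw [finsum_eq_sum_of_support_subset _ hs, Finset.sum_pair hab, hd, ha₁, hb₁, ha₂, hb₂]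
      norm_num [abs_of_pos, abs_of_neg]
  · refine ⟨0, Γ₁, le_refl _, ?_, ?_⟩
    · have hc := ncard_ge 3 1 (by norm_num) one_pos T₁ a b
      rw [count₁, ← hΓ₁] at hc
      have hc' : (6 : ℝ) ≤ ((Γ₁.appearances [a, b, b]).ncard : ℝ) := by exact_mod_cast hc
      unfold Grid.conc
      rw [hΓ₁, gridOf_card, ← hΓ₁, le_div_iff₀ (by norm_num)]
      norm_num
      linarith
    · have hne : ∃ A, h A ≠ Γ₁.dist A := by
        by_contra hcon
        push Not at hcon
        exact hd (funext hcon)
      obtain ⟨A, hA⟩ := hne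
      have hfin : (Function.support (fun A => |Γ₁.dist A - h A|)).Finite := by
        refine Set.Finite.subset (Set.Finite.union (Set.finite_mem_finset ({a, b} : Finset α))
          hh.2.1) ?_
        intro B hB
        by_contra hB'
        simp only [Set.mem_union, not_or] at hB'
        obtain ⟨hB1, hB2⟩ := hB'
        simp only [Finset.mem_insert, Finset.mem_singleton, Set.mem_ofPred_eq, not_or] at hB1
        apply hB
        change |Γ₁.dist B - h B| = 0
        rw [ho₁ B hB1.1 hB1.2, Function.notMem_support.mp hB2]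
        simp
      unfold tv
      have hpos : 0 < ∑ᶠ B, |Γ₁.dist B - h B| := by
        rw [finsum_eq_sum_of_support_subset (s := hfin.toFinset) _ (by
          rw [Set.Finite.coe_toFinset])]
        apply Finset.sum_pos'
        · intro B _
          exact abs_nonneg _
        · refine ⟨A, ?_, ?_⟩
          · rw [Set.Finite.mem_toFinset]
            intro h0
            have h0' : |Γ₁.dist A - h A| = 0 := h0
            rw [abs_eq_zero, sub_eq_zero] at h0'
            exact hA h0'.symm
          · rw [abs_pos, sub_ne_zero]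
            exact fun h0 => hA h0.symm
      linarith

end Pool.Agent.Results.MP_f54ac9_co.NoStableDistribution
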